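import Mathlib

set_option autoImplicit false

namespace Pool.Agent.PKP

open Finset

/-- the product of `1 - e/q` over the base `q` digits `e` of `n` -/
noncomputable def w (q n : ℕ) : ℝ := ((Nat.digits q n).map fun e => 1 - (e : ℝ) / q).prod

theorem w_rec (q n : ℕ) (hq : 2 ≤ q) :
    w q n = (1 - ((n % q : ℕ) : ℝ) / q) * w q (n / q) := by
  rcases Nat.eq_zero_or_pos n with h | h
  · subst h; simp [w]
  · unfold w
    rw [Nat.digits_def' hq h]
    simp

theorem w_nonneg (q n : ℕ) (hq : 2 ≤ q) : 0 ≤ w q n := by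
  induction n using Nat.strong_induction_on with
  | _ n ih =>
    rcases Nat.eq_zero_or_pos n with h | h
    · subst h; simp [w]
    · rw [w_rec q n hq]
      apply mul_nonneg _ (ih _ (Nat.div_lt_self h hq))
      have h1 : n % q < q := Nat.mod_lt _ (by omega)
      have h2 : ((n % q : ℕ) : ℝ) ≤ q := by exact_mod_cast h1.le
      have h3 : (0 : ℝ) < q := by exact_mod_cast (by omega : 0 < q)
      rw [sub_nonneg, div_le_one h3]
      exact h2

/-- difference operator of a permutation -/
noncomputable def U (q : ℕ) {X : Type} (σ : Equiv.Perm X) :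
    Module.End (ZMod q) (X → ZMod q) :=
  LinearMap.funLeft (ZMod q) (ZMod q) σ - 1

theorem U_apply (q : ℕ) {X : Type} (σ : Equiv.Perm X) (f : X → ZMod q) (x : X) :
    U q σ f x = f (σ x) - f x := by
  simp [U, LinearMap.funLeft_apply]

theorem funLeft_pow (q : ℕ) {X : Type} (σ : Equiv.Perm X) (n : ℕ) :
    (LinearMap.funLeft (ZMod q) (ZMod q) σ : Module.End (ZMod q) (X → ZMod q)) ^ n
      = LinearMap.funLeft (ZMod q) (ZMod q) (σ ^ n : Equiv.Perm X) := by
  induction n with
  | zero => ext f x; simp [LinearMap.funLeft_apply]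
  | succ n ih =>
    rw [pow_succ, ih]
    apply LinearMap.ext
    intro f
    funext x
    simp only [Module.End.mul_apply, LinearMap.funLeft_apply]
    rw [pow_succ', Equiv.Perm.mul_apply]

theorem U_pow_q (q : ℕ) [hq : Fact q.Prime] {X : Type} (σ : Equiv.Perm X) :
    (U q σ) ^ q = U q (σ ^ q) := by
  have h : ((Polynomial.X : Polynomial (ZMod q)) - 1) ^ q = Polynomial.X ^ q - 1 := by
    rw [sub_pow_char]
    simp
  have h2 := congrArg (Polynomial.aeval
    (LinearMap.funLeft (ZMod q) (ZMod q) σ : Module.End (ZMod q) (X → ZMod q))) h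
  simp only [map_pow, map_sub, Polynomial.aeval_X, map_one] at h2
  unfold U
  rw [h2, funLeft_pow]

open Classical in
/-- number of points where `f` is not zero -/
noncomputable def nz {q : ℕ} {X : Type} [Fintype X] (f : X → ZMod q) : ℕ :=
  (univ.filter fun x => f x ≠ 0).card

theorem iter_apply (q : ℕ) {X : Type} (σ : Equiv.Perm X) (f : X → ZMod q) (x : X) (l : ℕ) :
    ∀ t : ℕ, (fwdDiff (1 : ℕ))^[l] (fun n : ℕ => f ((σ ^ n) x)) t
      = ((U q σ) ^ l) f ((σ ^ t) x) := by
  induction l with
  | zero => intro t; simp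
  | succ l ih =>
    intro t
    rw [Function.iterate_succ_apply', fwdDiff, ih, ih, pow_succ' (U q σ) l, Module.End.mul_apply,
      U_apply, ← Equiv.Perm.mul_apply, ← pow_succ']

theorem zeros_le (q : ℕ) [hq : Fact q.Prime] (a : ℕ → ZMod q) (e : ℕ) (he : e < q)
    (h1 : ∀ l, e < l → (fwdDiff (1 : ℕ))^[l] a 0 = 0)
    (h2 : ∃ n, a n ≠ 0) :
    ((range q).filter fun t => a t = 0).card ≤ e := by
  classical
  set c : ℕ → ZMod q := fun l => (fwdDiff (1 : ℕ))^[l] a 0 with hc
  have hN : ∀ n : ℕ, a n = ∑ l ∈ range (e + 1), (n.choose l : ZMod q) * c l := by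
    intro n
    have h := shift_eq_sum_fwdDiff_iter (1 : ℕ) a n 0
    simp only [smul_eq_mul, mul_one, zero_add] at h
    rw [h]
    have e1 : ∑ k ∈ range (n + 1), n.choose k • (fwdDiff (1 : ℕ))^[k] a 0
        = ∑ k ∈ range (n + 1 + (e + 1)), n.choose k • (fwdDiff (1 : ℕ))^[k] a 0 := by
      apply sum_subset
      · intro x hx; simp only [mem_range] at *; omega
      · intro x _ hx2
        have : n < x := by simp only [mem_range] at hx2; omega
        rw [Nat.choose_eq_zero_of_lt this, zero_smul]
    have e2 : ∑ l ∈ range (e + 1), (n.choose l : ZMod q) * c l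
        = ∑ l ∈ range (n + 1 + (e + 1)), (n.choose l : ZMod q) * c l := by
      apply sum_subset
      · intro x hx; simp only [mem_range] at *; omega
      · intro x _ hx2
        have : e < x := by simp only [mem_range] at hx2; omega
        have h3 : c x = 0 := h1 x this
        rw [h3, mul_zero]
    rw [e1, e2]
    apply sum_congr rfl
    intro l _
    rw [nsmul_eq_mul]
  set Q : Polynomial (ZMod q) := ∑ l ∈ range (e + 1),
    Polynomial.C (c l / (l.factorial : ZMod q)) * descPochhammer (ZMod q) l with hQ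
  have hev : ∀ n : ℕ, Q.eval (n : ZMod q) = a n := by
    intro n
    rw [hN n, hQ, Polynomial.eval_finsetSum]
    apply sum_congr rfl
    intro l hl
    have hlq : l < q := by simp only [mem_range] at hl; omega
    have hf : (l.factorial : ZMod q) ≠ 0 := by
      intro h0
      rw [ZMod.natCast_eq_zero_iff] at h0
      have := (Nat.Prime.dvd_factorial hq.out).1 h0
      omega
    rw [Polynomial.eval_mul, Polynomial.eval_C, descPochhammer_eval_eq_descFactorial,
      Nat.descFactorial_eq_factorial_mul_choose]
    push_cast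
    field_simp
  have hQ0 : Q ≠ 0 := by
    intro h0
    obtain ⟨n, hn⟩ := h2
    apply hn
    rw [← hev n, h0, Polynomial.eval_zero]
  have hdeg : Q.natDegree ≤ e := by
    rw [hQ]
    apply Polynomial.natDegree_sum_le_of_forall_le
    intro l hl
    refine le_trans (Polynomial.natDegree_C_mul_le _ _) ?_
    rw [descPochhammer_natDegree]
    simp only [mem_range] at hl; omega
  have himg : (((range q).filter fun t => a t = 0).image (fun t : ℕ => (t : ZMod q))).val
      ⊆ Q.roots := by
    intro y hy
    rw [Finset.mem_val, mem_image] at hy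
    obtain ⟨t, ht, rfl⟩ := hy
    rw [mem_filter] at ht
    rw [Polynomial.mem_roots hQ0, Polynomial.IsRoot, hev]
    exact ht.2
  have hcard := Polynomial.card_le_degree_of_subset_roots himg
  rw [card_image_of_injOn] at hcard
  · exact hcard.trans hdeg
  · intro s hs t ht hst
    simp only [coe_filter, mem_range, Set.mem_ofPred_eq] at hs ht
    have h5 := (ZMod.natCast_eq_natCast_iff' s t q).1 hst
    rwa [Nat.mod_eq_of_lt hs.1, Nat.mod_eq_of_lt ht.1] at h5

theorem base (q : ℕ) [hq : Fact q.Prime] {X : Type} [Fintype X] (σ : Equiv.Perm X)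
    (f : X → ZMod q) (e : ℕ) (he : e < q) (h : ((U q σ) ^ (e + 1)) f = 0) :
    (q - e) * nz (((U q σ) ^ e) f) ≤ q * nz f := by
  classical
  have key : ∀ x : X, ((U q σ) ^ e) f x ≠ 0 →
      q - e ≤ ((range q).filter fun t => f ((σ ^ t) x) ≠ 0).card := by
    intro x hx
    have hz := zeros_le q (fun n : ℕ => f ((σ ^ n) x)) e he ?_ ?_
    · have := card_filter_add_card_filter_not (s := range q) (fun t => f ((σ ^ t) x) = 0)
      rw [card_range] at this
      have h3 : ((range q).filter fun t => ¬ f ((σ ^ t) x) = 0).card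
        = ((range q).filter fun t => f ((σ ^ t) x) ≠ 0).card := rfl
      omega
    · intro l hl
      rw [iter_apply]
      obtain ⟨m, rfl⟩ := Nat.exists_eq_add_of_lt hl
      rw [show e + m + 1 = m + (e + 1) by ring, pow_add, Module.End.mul_apply, h, map_zero]
      rfl
    · by_contra hcon
      push Not at hcon
      apply hx
      have := iter_apply q σ f x e 0
      rw [pow_zero, Equiv.Perm.one_apply] at this
      rw [← this]
      have hz : (fun n : ℕ => f ((σ ^ n) x)) = 0 := by funext n; exact hcon n
      have h0 : fwdDiff (1 : ℕ) (0 : ℕ → ZMod q) = 0 := by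
        funext n
        simp [fwdDiff]
      rw [hz, Function.iterate_fixed h0]
      rfl
  have hsum : ∑ x : X, ((range q).filter fun t => f ((σ ^ t) x) ≠ 0).card = q * nz f := by
    simp only [card_filter]
    rw [sum_comm]
    have : ∀ t ∈ range q, ∑ x : X, (if f ((σ ^ t) x) ≠ 0 then 1 else 0) = nz f := by
      intro t _
      rw [nz, card_filter]
      exact Equiv.sum_comp (σ ^ t) (fun x => if f x ≠ 0 then 1 else 0)
    rw [sum_congr rfl this, sum_const, card_range, smul_eq_mul]
  rw [← hsum]
  calc (q - e) * nz (((U q σ) ^ e) f)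
      = ∑ x ∈ univ.filter (fun x => ((U q σ) ^ e) f x ≠ 0), (q - e) := by
        rw [sum_const, smul_eq_mul, mul_comm]; rfl
    _ ≤ ∑ x ∈ univ.filter (fun x => ((U q σ) ^ e) f x ≠ 0),
          ((range q).filter fun t => f ((σ ^ t) x) ≠ 0).card := by
        apply sum_le_sum
        intro x hx
        exact key x (mem_filter.1 hx).2
    _ ≤ ∑ x : X, ((range q).filter fun t => f ((σ ^ t) x) ≠ 0).card := by
        apply sum_le_sum_of_subset
        exact filter_subset _ _

theorem main (q : ℕ) [hq : Fact q.Prime] {X : Type} [Fintype X] (N : ℕ) :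
    ∀ (σ : Equiv.Perm X) (f : X → ZMod q), ((U q σ) ^ (N + 1)) f = 0 →
      w q N * nz (((U q σ) ^ N) f) ≤ nz f := by
  have hq2 := hq.out.two_le
  induction N using Nat.strong_induction_on with
  | _ N ih =>
    intro σ f h
    rcases Nat.eq_zero_or_pos N with h0 | h0
    · subst h0; simp [w]
    · have hdm := Nat.div_add_mod N q
      have hml : N % q < q := Nat.mod_lt _ (by omega)
      have hU : ∀ n, (U q (σ ^ q)) ^ n = (U q σ) ^ (q * n) := by
        intro n
        rw [← U_pow_q, ← pow_mul]
      have h1 := ih (N / q) (Nat.div_lt_self h0 hq2) (σ ^ q) f (by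
        rw [hU]
        obtain ⟨m, hm⟩ : ∃ m, q * (N / q + 1) = m + (N + 1) :=
          ⟨q * (N / q + 1) - (N + 1), by
            have : N + 1 ≤ q * (N / q + 1) := by rw [mul_add]; omega
            omega⟩
        rw [hm, pow_add, Module.End.mul_apply, h, map_zero])
      rw [hU] at h1
      have h2 := base q σ (((U q σ) ^ (q * (N / q))) f) (N % q) hml (by
        rw [← Module.End.mul_apply, ← pow_add]
        rw [show N % q + 1 + q * (N / q) = N + 1 by omega]
        exact h)
      rw [← Module.End.mul_apply, ← pow_add, show N % q + q * (N / q) = N by omega] at h2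
      rw [w_rec q N hq2]
      have hqpos : (0 : ℝ) < q := by exact_mod_cast (by omega : 0 < q)
      have h3 : (1 - ((N % q : ℕ) : ℝ) / q) * nz (((U q σ) ^ N) f)
          ≤ nz (((U q σ) ^ (q * (N / q))) f) := by
        have h4 : ((q - N % q : ℕ) : ℝ) * nz (((U q σ) ^ N) f)
          ≤ q * nz (((U q σ) ^ (q * (N / q))) f) := by exact_mod_cast h2
        rw [Nat.cast_sub hml.le] at h4
        have h5 : (1 - ((N % q : ℕ) : ℝ) / q) * nz (((U q σ) ^ N) f)
          = (((q : ℝ) - (N % q : ℕ)) * nz (((U q σ) ^ N) f)) / q := by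
          field_simp
        rw [h5, div_le_iff₀ hqpos]
        linarith
      have hw := w_nonneg q (N / q) hq2
      calc (1 - ((N % q : ℕ) : ℝ) / q) * w q (N / q) * nz (((U q σ) ^ N) f)
          = w q (N / q) * ((1 - ((N % q : ℕ) : ℝ) / q) * nz (((U q σ) ^ N) f)) := by ring
        _ ≤ w q (N / q) * nz (((U q σ) ^ (q * (N / q))) f) := by
            apply mul_le_mul_of_nonneg_left h3 hw
        _ ≤ nz f := h1

theorem U_pow_qs (q : ℕ) [hq : Fact q.Prime] {X : Type} (σ : Equiv.Perm X) (s : ℕ) :
    (U q σ) ^ (q ^ s) = U q (σ ^ (q ^ s)) := by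
  induction s with
  | zero => simp
  | succ s ih => rw [pow_succ, pow_mul, ih, U_pow_q, ← pow_mul]

theorem lower (q : ℕ) [hq : Fact q.Prime] {X : Type} [Fintype X] [DecidableEq X]
    (τ : Equiv.Perm X) (f : X → ZMod q) (c : ZMod q) (h : U q τ (U q τ f) = 0) :
    nz (U q τ f) ≤ q * (univ.filter fun x => f x = c).card := by
  classical
  have hg : ∀ (t : ℕ) (x : X), U q τ f ((τ ^ t) x) = U q τ f x := by
    intro t x
    induction t with
    | zero => simp
    | succ t ih =>
      have h1 := congrFun h ((τ ^ t) x)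
      rw [U_apply, Pi.zero_apply, sub_eq_zero] at h1
      rw [pow_succ', Equiv.Perm.mul_apply, h1, ih]
  have hf : ∀ (t : ℕ) (x : X), f ((τ ^ t) x) = f x + t * U q τ f x := by
    intro t x
    induction t with
    | zero => simp
    | succ t ih =>
      have h1 := hg t x
      rw [U_apply, ih] at h1
      rw [pow_succ', Equiv.Perm.mul_apply]
      push_cast
      linear_combination h1
  have key : ∀ x : X, U q τ f x ≠ 0 →
      1 ≤ ((range q).filter fun t => f ((τ ^ t) x) = c).card := by
    intro x hx
    rw [Nat.one_le_iff_ne_zero, Finset.card_ne_zero]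
    refine ⟨((c - f x) / U q τ f x : ZMod q).val, ?_⟩
    rw [mem_filter, mem_range]
    refine ⟨ZMod.val_lt _, ?_⟩
    rw [hf, ZMod.natCast_zmod_val]
    field_simp
    ring
  have hsum : ∑ x : X, ((range q).filter fun t => f ((τ ^ t) x) = c).card
      = q * (univ.filter fun x => f x = c).card := by
    simp only [card_filter]
    rw [sum_comm]
    have : ∀ t ∈ range q, ∑ x : X, (if f ((τ ^ t) x) = c then 1 else 0)
        = ∑ x : X, (if f x = c then 1 else 0) := by
      intro t _
      exact Equiv.sum_comp (τ ^ t) (fun x => if f x = c then 1 else 0)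
    rw [sum_congr rfl this, sum_const, card_range, smul_eq_mul]
  rw [← hsum]
  calc nz (U q τ f)
      = ∑ x ∈ univ.filter (fun x => U q τ f x ≠ 0), 1 := by
        rw [sum_const, smul_eq_mul, mul_one]; rfl
    _ ≤ ∑ x ∈ univ.filter (fun x => U q τ f x ≠ 0),
          ((range q).filter fun t => f ((τ ^ t) x) = c).card := by
        apply sum_le_sum
        intro x hx
        exact key x (mem_filter.1 hx).2
    _ ≤ ∑ x : X, ((range q).filter fun t => f ((τ ^ t) x) = c).card := by
        apply sum_le_sum_of_subset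
        exact filter_subset _ _

/-- upper bound for the number of solutions of `f = c` -/
theorem upper_final (q : ℕ) [hq : Fact q.Prime] {X : Type} [Fintype X] [DecidableEq X]
    (N : ℕ) (hN : 0 < N)
    (σ : Equiv.Perm X) (f : X → ZMod q) (c : ZMod q) (h : ((U q σ) ^ (N + 1)) f = 0)
    (h1 : ∀ x, ((U q σ) ^ N) f x ≠ 0) :
    ((univ.filter fun x => f x = c).card : ℝ) ≤ (1 - w q N) * Fintype.card X := by
  classical
  set f' : X → ZMod q := fun x => f x - c with hf'
  have hU1 : U q σ f' = U q σ f := by
    funext x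
    rw [U_apply, U_apply, hf']
    ring
  have hU : ∀ n, 0 < n → ((U q σ) ^ n) f' = ((U q σ) ^ n) f := by
    intro n hn
    obtain ⟨m, rfl⟩ : ∃ m, n = m + 1 := ⟨n - 1, by omega⟩
    rw [pow_succ, Module.End.mul_apply, Module.End.mul_apply, hU1]
  have hm := main q N σ f' (by rw [hU _ (by omega)]; exact h)
  rw [hU N hN] at hm
  have h2 : nz (((U q σ) ^ N) f) = Fintype.card X := by
    unfold nz
    rw [filter_true_of_mem (fun x _ => h1 x), card_univ]
  rw [h2] at hm
  have h3 : (univ.filter fun x => f x = c).card + nz f' = Fintype.card X := by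
    have := card_filter_add_card_filter_not (s := (univ : Finset X)) (fun x => f x = c)
    rw [card_univ] at this
    have h4 : nz f' = (univ.filter fun x => ¬ f x = c).card := by
      unfold nz
      congr 1
      apply filter_congr
      intro x _
      rw [hf']
      simp [sub_eq_zero]
    rw [h4]; exact this
  have h5 : ((univ.filter fun x => f x = c).card : ℝ) + nz f' = Fintype.card X := by
    exact_mod_cast h3
  nlinarith [hm, h5]

/-- lower bound for the number of solutions of `f = c` -/
theorem lower_final (q : ℕ) [hq : Fact q.Prime] {X : Type} [Fintype X] [DecidableEq X]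
    (s N' : ℕ) (hN : N' < q ^ s)
    (σ : Equiv.Perm X) (f : X → ZMod q) (c : ZMod q) (h : ((U q σ) ^ (q ^ s + N' + 1)) f = 0)
    (h1 : ∀ x, ((U q σ) ^ (q ^ s + N')) f x ≠ 0) :
    w q N' * Fintype.card X ≤ q * ((univ.filter fun x => f x = c).card : ℝ) := by
  classical
  have hl := lower q (σ ^ (q ^ s)) f c (by
    rw [← U_pow_qs, ← Module.End.mul_apply, ← pow_add]
    obtain ⟨m, hm⟩ : ∃ m, q ^ s + q ^ s = m + (q ^ s + N' + 1) :=
      ⟨q ^ s - (N' + 1), by omega⟩
    rw [hm, pow_add, Module.End.mul_apply, h, map_zero])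
  rw [← U_pow_qs] at hl
  have hm := main q N' σ (((U q σ) ^ (q ^ s)) f) (by
    rw [← Module.End.mul_apply, ← pow_add, show N' + 1 + q ^ s = q ^ s + N' + 1 by ring]
    exact h)
  rw [← Module.End.mul_apply, ← pow_add, show N' + q ^ s = q ^ s + N' by ring] at hm
  have h2 : nz (((U q σ) ^ (q ^ s + N')) f) = Fintype.card X := by
    unfold nz
    rw [filter_true_of_mem (fun x _ => h1 x), card_univ]
  rw [h2] at hm
  refine hm.trans ?_
  exact_mod_cast hl

end Pool.Agent.PKP
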