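import Mathlib

set_option autoImplicit false

namespace Pool.Agent.PKP

open Finset

/-- number of partitions of `n` into parts `1^d, ..., k^d` -/
noncomputable def P (d k n : ℕ) : ℕ :=
  Nat.card {x : Fin k → ℕ // ∑ j, x j * (j.val + 1) ^ d = n}

/-- the same set as a finset -/
def S (d k n : ℕ) : Finset (Fin k → ℕ) :=
  (Fintype.piFinset fun _ : Fin k => range (n + 1)).filter
    fun x => ∑ j, x j * (j.val + 1) ^ d = n

theorem mem_S (d k n : ℕ) (x : Fin k → ℕ) :
    x ∈ S d k n ↔ ∑ j, x j * (j.val + 1) ^ d = n := by
  unfold S
  rw [mem_filter, Fintype.mem_piFinset]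
  constructor
  · exact fun h => h.2
  · intro h
    refine ⟨fun j => ?_, h⟩
    rw [mem_range]
    have h1 : x j * (j.val + 1) ^ d ≤ n := by
      rw [← h]
      exact single_le_sum (f := fun j : Fin k => x j * (j.val + 1) ^ d)
        (fun i _ => Nat.zero_le _) (mem_univ j)
    have h2 : 1 ≤ (j.val + 1) ^ d := Nat.one_le_pow _ _ (by omega)
    have h3 : x j * 1 ≤ x j * (j.val + 1) ^ d := Nat.mul_le_mul_left _ h2
    omega

theorem P_eq (d k n : ℕ) : P d k n = (S d k n).card := by
  unfold P
  exact Nat.subtype_card (S d k n) (mem_S d k n)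

theorem P_zero (d n : ℕ) : P d 0 n = if n = 0 then 1 else 0 := by
  rw [P_eq]
  by_cases h : n = 0
  · subst h
    rw [if_pos rfl, card_eq_one]
    refine ⟨fun _ => 0, ?_⟩
    ext x
    rw [mem_S, mem_singleton]
    constructor
    · intro _; funext j; exact j.elim0
    · intro _; simp
  · rw [if_neg h, card_eq_zero]
    ext x
    rw [mem_S]
    simp
    omega

theorem P_succ (d k n : ℕ) :
    P d (k + 1) n = P d k n + if (k + 1) ^ d ≤ n then P d (k + 1) (n - (k + 1) ^ d) else 0 := by
  classical
  rw [P_eq, P_eq]
  have hsplit := card_filter_add_card_filter_not (s := S d (k + 1) n)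
    (fun x => x (Fin.last k) = 0)
  rw [← hsplit]
  congr 1
  · refine card_bij' (fun x _ => fun j : Fin k => x j.castSucc)
      (fun y _ => (Fin.snoc y 0 : Fin (k + 1) → ℕ)) ?_ ?_ ?_ ?_
    · intro x hx
      rw [mem_filter, mem_S] at hx
      rw [mem_S]
      rw [Fin.sum_univ_castSucc, hx.2] at hx
      simpa using hx.1
    · intro y hy
      rw [mem_S] at hy
      rw [mem_filter, mem_S, Fin.sum_univ_castSucc]
      simpa using hy
    · intro x hx
      rw [mem_filter] at hx
      funext j
      refine Fin.lastCases ?_ (fun i => ?_) j
      · simp [hx.2]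
      · simp
    · intro y hy
      funext j
      simp
  · split_ifs with h
    · rw [P_eq]
      refine card_bij' (fun x _ => Function.update x (Fin.last k) (x (Fin.last k) - 1))
        (fun y _ => Function.update y (Fin.last k) (y (Fin.last k) + 1)) ?_ ?_ ?_ ?_
      · intro x hx
        rw [mem_filter, mem_S, Fin.sum_univ_castSucc] at hx
        rw [mem_S, Fin.sum_univ_castSucc]
        simp only [Fin.val_castSucc, Fin.val_last, Function.update_self,
          Function.update_of_ne (Fin.castSucc_lt_last _).ne] at hx ⊢
        have h1 : x (Fin.last k) = (x (Fin.last k) - 1) + 1 := by omega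
        rw [h1, add_mul, one_mul] at hx
        omega
      · intro y hy
        rw [mem_S, Fin.sum_univ_castSucc] at hy
        rw [mem_filter, mem_S, Fin.sum_univ_castSucc]
        simp only [Fin.val_castSucc, Fin.val_last, Function.update_self,
          Function.update_of_ne (Fin.castSucc_lt_last _).ne] at hy ⊢
        rw [add_mul, one_mul]
        omega
      · intro x hx
        rw [mem_filter] at hx
        simp only [Function.update_self, Function.update_idem]
        rw [Nat.sub_add_cancel (by omega), Function.update_eq_self]
      · intro y _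
        simp only [Function.update_self, Function.update_idem]
        rw [Nat.add_sub_cancel, Function.update_eq_self]
    · rw [card_eq_zero]
      ext x
      rw [mem_filter, mem_S, Fin.sum_univ_castSucc]
      simp only [Fin.val_castSucc, Fin.val_last, notMem_empty, iff_false, not_and, not_not]
      intro h1
      by_contra h2
      apply h
      have h3 : 1 * (k + 1) ^ d ≤ x (Fin.last k) * (k + 1) ^ d :=
        Nat.mul_le_mul_right _ (by omega)
      omega

end Pool.Agent.PKP
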