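import Pool.Agent.PKP.Squares

set_option autoImplicit false

namespace Pool.Agent.PKP

open Finset

/-- `q^(d v_q(j))` -/
def gd (q d j : ℕ) : ℕ := q ^ (d * padicValNat q j)

/-- `∑_{1 ≤ j ≤ K} q^(d v_q(j))` -/
def Md (q d K : ℕ) : ℕ := ∑ j ∈ range K, gd q d (j + 1)

theorem gd_add (q : ℕ) [hq : Fact q.Prime] (d v j : ℕ) (hj : j ≠ 0) (h : j < q ^ v) :
    gd q d (q ^ v + j) = gd q d j := by
  have h1 := g_add q v j hj h
  unfold g at h1
  have h2 : 2 * padicValNat q (q ^ v + j) = 2 * padicValNat q j :=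
    Nat.pow_right_injective hq.out.two_le h1
  unfold gd
  rw [show padicValNat q (q ^ v + j) = padicValNat q j by omega]

theorem Md_add (q : ℕ) [hq : Fact q.Prime] (d v k : ℕ) (h : k < q ^ v) :
    Md q d (q ^ v + k) = Md q d (q ^ v) + Md q d k := by
  unfold Md
  rw [sum_range_add]
  congr 1
  apply sum_congr rfl
  intro j hj
  rw [mem_range] at hj
  rw [show q ^ v + j + 1 = q ^ v + (j + 1) by ring]
  exact gd_add q d v (j + 1) (by omega) (by omega)

theorem Md_mul (q : ℕ) [hq : Fact q.Prime] (d K : ℕ) :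
    Md q d (q * K) = (q - 1) * K + q ^ d * Md q d K := by
  have hq2 := hq.out.two_le
  induction K with
  | zero => simp [Md]
  | succ K ih =>
    have e1 : Md q d (q * (K + 1)) = Md q d (q * K) + ∑ r ∈ range q, gd q d (q * K + r + 1) := by
      unfold Md
      rw [mul_add, mul_one, sum_range_add]
    have e2 : ∑ r ∈ range q, gd q d (q * K + r + 1) = (q - 1) + q ^ d * gd q d (K + 1) := by
      obtain ⟨q', hq'⟩ : ∃ q', q = q' + 1 := ⟨q - 1, by omega⟩
      have e3 : ∑ r ∈ range q, gd q d (q * K + r + 1)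
          = ∑ r ∈ range q', gd q d (q * K + r + 1) + gd q d (q * K + q' + 1) := by
        conv_lhs => rw [show range q = range (q' + 1) by rw [← hq']]
        rw [sum_range_succ]
      have e4 : ∀ r ∈ range q', gd q d (q * K + r + 1) = 1 := by
        intro r hr
        rw [mem_range] at hr
        unfold gd
        rw [padicValNat.eq_zero_of_not_dvd]
        · simp
        · intro h5
          rw [show q * K + r + 1 = q * K + (r + 1) by ring,
            Nat.dvd_add_right (Dvd.intro _ rfl)] at h5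
          have := Nat.le_of_dvd (by omega) h5
          omega
      have e5 : gd q d (q * K + q' + 1) = q ^ d * gd q d (K + 1) := by
        rw [show q * K + q' + 1 = q * (K + 1) by rw [mul_add, mul_one]; omega]
        unfold gd
        rw [padicValNat.mul hq.out.ne_zero (by omega), padicValNat_self, ← pow_add]
        congr 1
        ring
      rw [e3, sum_congr rfl e4, sum_const, card_range, smul_eq_mul, mul_one, e5]
      congr 1
      omega
    rw [e1, ih, e2]
    have e6 : Md q d (K + 1) = Md q d K + gd q d (K + 1) := by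
      unfold Md
      rw [sum_range_succ]
    rw [e6]
    ring

theorem Nn_eqd (q d k : ℕ) : Nn q d (k + 1) + 1 = Md q d (k + 1) := by
  induction k with
  | zero => simp [Nn, Md, gd]
  | succ k ih =>
    have e1 : Nn q d (k + 1 + 1) = Nn q d (k + 1) + gd q d (k + 1 + 1) := by
      unfold Nn
      rw [sum_Icc_succ_top (by omega)]
      rfl
    have e2 : Md q d (k + 1 + 1) = Md q d (k + 1) + gd q d (k + 1 + 1) := by
      unfold Md
      rw [sum_range_succ]
    rw [e1, e2, ← ih]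
    ring

/-- `(q-1) ∑_{i<v} q^((d-1) i)`, recursively -/
def Sv (q d : ℕ) : ℕ → ℕ
  | 0 => 0
  | v + 1 => (q - 1) + q ^ (d - 1) * Sv q d v

theorem Md_pow (q : ℕ) [hq : Fact q.Prime] (d v : ℕ) (hd : 2 ≤ d) :
    Md q d (q ^ (v + 1)) = q ^ (d * (v + 1)) + q ^ v * Sv q d (v + 1) := by
  induction v with
  | zero =>
    have h := Md_mul q d 1
    rw [mul_one] at h
    rw [pow_one, h]
    have e1 : Md q d 1 = 1 := by simp [Md, gd]
    rw [e1]
    simp [Sv]
    ring
  | succ v ih =>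
    rw [pow_succ q (v + 1), mul_comm (q ^ (v + 1)) q, Md_mul, ih]
    have e1 : Sv q d (v + 1 + 1) = (q - 1) + q ^ (d - 1) * Sv q d (v + 1) := rfl
    rw [e1]
    have e2 : q ^ d = q * q ^ (d - 1) := by
      rw [← pow_succ', show d - 1 + 1 = d by omega]
    have e3 : q ^ (d * (v + 1 + 1)) = q ^ d * q ^ (d * (v + 1)) := by
      rw [← pow_add]; congr 1; ring
    rw [e3, e2]
    ring

theorem Sv_bound (q : ℕ) [hq : Fact q.Prime] (d v : ℕ) (hd : 2 ≤ d) :
    q ^ v * Sv q d (v + 1) + q ^ v ≤ q ^ (d * (v + 1) - 1) := by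
  have hq2 := hq.out.two_le
  induction v with
  | zero =>
    have e1 : Sv q d (0 + 1) = q - 1 := by simp [Sv]
    rw [e1, pow_zero, one_mul]
    have e2 : q ^ 1 ≤ q ^ (d * (0 + 1) - 1) := Nat.pow_le_pow_right (by omega) (by omega)
    rw [pow_one] at e2
    omega
  | succ v ih =>
    have e1 : Sv q d (v + 1 + 1) = (q - 1) + q ^ (d - 1) * Sv q d (v + 1) := rfl
    have e2 : q ^ d = q * q ^ (d - 1) := by
      rw [← pow_succ', show d - 1 + 1 = d by omega]
    have e4 : q ^ (d * (v + 1 + 1) - 1) = q ^ d * q ^ (d * (v + 1) - 1) := by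
      rw [← pow_add]
      congr 1
      have : 1 ≤ d * (v + 1) := Nat.mul_pos (by omega) (by omega)
      rw [mul_add d (v + 1) 1, mul_one]
      omega
    have e5 : q ^ (v + 1) * Sv q d (v + 1 + 1) + q ^ (v + 1)
        = q ^ (v + 2) + q ^ d * (q ^ v * Sv q d (v + 1)) := by
      obtain ⟨q', hq'⟩ : ∃ q', q = q' + 1 := ⟨q - 1, by omega⟩
      rw [e1, e2, show q - 1 = q' by omega]
      calc q ^ (v + 1) * (q' + q ^ (d - 1) * Sv q d (v + 1)) + q ^ (v + 1)
          = q ^ (v + 1) * (q' + 1) + q * q ^ (d - 1) * (q ^ v * Sv q d (v + 1)) := by ring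
        _ = _ := by rw [← hq']; ring
    rw [e4, e5]
    have e6 : q ^ (v + 2) ≤ q ^ d * q ^ v := by
      rw [← pow_add]
      exact Nat.pow_le_pow_right (by omega) (by omega)
    calc q ^ (v + 2) + q ^ d * (q ^ v * Sv q d (v + 1))
        ≤ q ^ d * q ^ v + q ^ d * (q ^ v * Sv q d (v + 1)) := by omega
      _ = q ^ d * (q ^ v * Sv q d (v + 1) + q ^ v) := by ring
      _ ≤ q ^ d * q ^ (d * (v + 1) - 1) := Nat.mul_le_mul_left _ ih

theorem w_pow_mul (q : ℕ) (hq : 2 ≤ q) (a n : ℕ) : w q (q ^ a * n) = w q n := by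
  induction a with
  | zero => simp
  | succ a ih =>
    rw [w_rec q _ hq]
    have e1 : q ^ (a + 1) * n = q * (q ^ a * n) := by rw [pow_succ]; ring
    rw [e1, Nat.mul_mod_right, Nat.mul_div_cancel_left _ (by omega : 0 < q), ih]
    simp

theorem w_Sv (q : ℕ) [hq : Fact q.Prime] (d v : ℕ) (hd : 2 ≤ d) :
    w q (Sv q d v) = (1 / (q : ℝ)) ^ v := by
  have hq2 := hq.out.two_le
  have hqpos : (0 : ℝ) < q := by exact_mod_cast hq.out.pos
  induction v with
  | zero => simp [Sv, w]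
  | succ v ih =>
    have e1 : Sv q d (v + 1) = (q - 1) + q * (q ^ (d - 2) * Sv q d v) := by
      show (q - 1) + q ^ (d - 1) * Sv q d v = _
      rw [← mul_assoc, ← pow_succ', show d - 2 + 1 = d - 1 by omega]
    rw [w_rec q _ hq2, e1, Nat.add_mul_mod_self_left, Nat.mod_eq_of_lt (by omega),
      Nat.add_mul_div_left _ _ (by omega : 0 < q), Nat.div_eq_of_lt (by omega), zero_add,
      w_pow_mul q hq2, ih, Nat.cast_sub (by omega : 1 ≤ q), pow_succ]
    field_simp
    ring

theorem w_Sv_sub (q : ℕ) [hq : Fact q.Prime] (d v : ℕ) (hd : 2 ≤ d) :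
    w q (Sv q d (v + 1) - 1) = 2 / (q : ℝ) * (1 / (q : ℝ)) ^ v := by
  have hq2 := hq.out.two_le
  have hqpos : (0 : ℝ) < q := by exact_mod_cast hq.out.pos
  have e1 : Sv q d (v + 1) - 1 = (q - 2) + q * (q ^ (d - 2) * Sv q d v) := by
    have : Sv q d (v + 1) = (q - 1) + q * (q ^ (d - 2) * Sv q d v) := by
      show (q - 1) + q ^ (d - 1) * Sv q d v = _
      rw [← mul_assoc, ← pow_succ', show d - 2 + 1 = d - 1 by omega]
    rw [this]
    omega
  rw [w_rec q _ hq2, e1, Nat.add_mul_mod_self_left, Nat.mod_eq_of_lt (by omega),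
    Nat.add_mul_div_left _ _ (by omega : 0 < q), Nat.div_eq_of_lt (by omega), zero_add,
    w_pow_mul q hq2, w_Sv q d v hd, Nat.cast_sub (by omega : 2 ≤ q)]
  push_cast
  field_simp
  ring

theorem w_shift (q : ℕ) [hq : Fact q.Prime] (v n : ℕ) (hn : 1 ≤ n) :
    w q (q ^ v * n - 1) = (1 / (q : ℝ)) ^ v * w q (n - 1) := by
  have hq2 := hq.out.two_le
  have hqpos : (0 : ℝ) < q := by exact_mod_cast hq.out.pos
  induction v with
  | zero => simp
  | succ v ih =>
    have hpos : 1 ≤ q ^ v * n := Nat.mul_pos (pow_pos (by omega) _) (by omega)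
    have e1 : q ^ (v + 1) * n - 1 = (q - 1) + q * (q ^ v * n - 1) := by
      have : q ^ (v + 1) * n = q * (q ^ v * n) := by rw [pow_succ]; ring
      rw [this, Nat.mul_sub]
      have h2 : q * 1 ≤ q * (q ^ v * n) := Nat.mul_le_mul_left _ hpos
      omega
    rw [w_rec q _ hq2, e1, Nat.add_mul_mod_self_left, Nat.mod_eq_of_lt (by omega),
      Nat.add_mul_div_left _ _ (by omega : 0 < q), Nat.div_eq_of_lt (by omega), zero_add,
      ih, Nat.cast_sub (by omega : 1 ≤ q), pow_succ]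
    field_simp
    ring

/-- the leading digit -/
theorem lead_one (q : ℕ) [hq : Fact q.Prime] (d v k : ℕ) (hd : 2 ≤ d) (hv : 1 ≤ v)
    (h1 : q ^ v ≤ k) (h2 : k < 2 * q ^ v) :
    q ^ (d * v) ≤ Nn q d k ∧ Nn q d k - q ^ (d * v) < q ^ (d * v) := by
  have hq2 := hq.out.two_le
  obtain ⟨v, rfl⟩ : ∃ u, v = u + 1 := ⟨v - 1, by omega⟩
  obtain ⟨k', rfl⟩ := Nat.exists_eq_add_of_le h1
  have hk' : k' < q ^ (v + 1) := by omega
  have hpos : 0 < q ^ (v + 1) := pow_pos (by omega) _
  have hM := Md_add q d (v + 1) k' hk'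
  rw [Md_pow q d v hd] at hM
  have hB := Sv_bound q d v hd
  have hNn : Nn q d (q ^ (v + 1) + k') + 1 = Md q d (q ^ (v + 1) + k') := by
    have e := Nn_eqd q d (q ^ (v + 1) + k' - 1)
    rwa [show q ^ (v + 1) + k' - 1 + 1 = q ^ (v + 1) + k' by omega] at e
  have hle : Md q d k' ≤ q ^ v * Sv q d (v + 1) := by
    have e1 : Md q d (k' + 1) ≤ Md q d (q ^ (v + 1)) := by
      unfold Md
      apply sum_le_sum_of_subset
      intro x hx
      rw [mem_range] at hx ⊢
      omega
    have e2 : Md q d (q ^ (v + 1) - 1) + gd q d (q ^ (v + 1)) = Md q d (q ^ (v + 1)) := by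
      have e3 : Md q d (q ^ (v + 1) - 1 + 1) = Md q d (q ^ (v + 1) - 1)
          + gd q d (q ^ (v + 1) - 1 + 1) := by
        unfold Md
        rw [sum_range_succ]
      rw [show q ^ (v + 1) - 1 + 1 = q ^ (v + 1) by omega] at e3
      exact e3.symm
    have e4 : gd q d (q ^ (v + 1)) = q ^ (d * (v + 1)) := by
      unfold gd
      rw [padicValNat.prime_pow]
    have e5 : Md q d k' ≤ Md q d (q ^ (v + 1) - 1) := by
      unfold Md
      apply sum_le_sum_of_subset
      intro x hx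
      rw [mem_range] at hx ⊢
      omega
    rw [Md_pow q d v hd, e4] at e2
    omega
  have h3 : 2 * q ^ (d * (v + 1) - 1) ≤ q ^ (d * (v + 1)) := by
    have : 1 ≤ d * (v + 1) := Nat.mul_pos (by omega) (by omega)
    have e1 : q ^ (d * (v + 1)) = q * q ^ (d * (v + 1) - 1) := by
      rw [← pow_succ', show d * (v + 1) - 1 + 1 = d * (v + 1) by omega]
    rw [e1]
    exact Nat.mul_le_mul_right _ hq2
  have h4 : 1 ≤ q ^ v := Nat.one_le_pow _ _ (by omega)
  have h5 : 1 ≤ Sv q d (v + 1) := by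
    show 1 ≤ (q - 1) + q ^ (d - 1) * Sv q d v
    omega
  have h6 : 1 * 1 ≤ q ^ v * Sv q d (v + 1) := Nat.mul_le_mul h4 h5
  constructor
  · omega
  · omega

theorem eval_pow (q : ℕ) [hq : Fact q.Prime] (d v : ℕ) (hd : 2 ≤ d) :
    w q (Nn q d (q ^ (v + 1)) - q ^ (d * (v + 1))) = 2 / (q : ℝ) ^ (2 * v + 1) := by
  have hq2 := hq.out.two_le
  have hpos : 0 < q ^ (v + 1) := pow_pos (by omega) _
  have hNn : Nn q d (q ^ (v + 1)) + 1 = Md q d (q ^ (v + 1)) := by
    have e := Nn_eqd q d (q ^ (v + 1) - 1)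
    rwa [show q ^ (v + 1) - 1 + 1 = q ^ (v + 1) by omega] at e
  rw [Md_pow q d v hd] at hNn
  have h5 : 1 ≤ Sv q d (v + 1) := by
    show 1 ≤ (q - 1) + q ^ (d - 1) * Sv q d v
    omega
  have e1 : Nn q d (q ^ (v + 1)) - q ^ (d * (v + 1)) = q ^ v * Sv q d (v + 1) - 1 := by omega
  rw [e1, w_shift q v _ h5, w_Sv_sub q d v hd]
  have hqpos : (0 : ℝ) < q := by exact_mod_cast hq.out.pos
  rw [one_div, inv_pow, show 2 * v + 1 = v + v + 1 by ring, pow_add, pow_add, pow_one]
  field_simp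

theorem eval_pow_succ (q : ℕ) [hq : Fact q.Prime] (d v : ℕ) (hd : 2 ≤ d) :
    w q (Nn q d (q ^ (v + 1) + 1) - q ^ (d * (v + 1))) = (1 / (q : ℝ)) ^ (v + 1) := by
  have hq2 := hq.out.two_le
  have hlt : 1 < q ^ (v + 1) := Nat.one_lt_pow (by omega) (by omega)
  have hNn := Nn_eqd q d (q ^ (v + 1))
  rw [Md_add q d (v + 1) 1 hlt, Md_pow q d v hd] at hNn
  have e1 : Md q d 1 = 1 := by simp [Md, gd]
  rw [e1] at hNn
  have e2 : Nn q d (q ^ (v + 1) + 1) - q ^ (d * (v + 1)) = q ^ v * Sv q d (v + 1) := by omega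
  rw [e2, w_pow_mul q hq2, w_Sv q d (v + 1) hd]

theorem w_ge (q : ℕ) (hq : 2 ≤ q) (a : ℕ) : ∀ n : ℕ, n < q ^ a → (1 / (q : ℝ)) ^ a ≤ w q n := by
  have hqpos : (0 : ℝ) < q := by exact_mod_cast (by omega : 0 < q)
  induction a with
  | zero =>
    intro n hn
    have h0 : n = 0 := by simpa using hn
    subst h0
    simp [w]
  | succ a ih =>
    intro n hn
    rw [w_rec q n hq, pow_succ, mul_comm]
    have h1 : n / q < q ^ a := by
      rw [Nat.div_lt_iff_lt_mul (by omega), ← pow_succ]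
      exact hn
    have h2 : n % q + 1 ≤ q := Nat.mod_lt _ (by omega)
    have h3 : ((n % q : ℕ) : ℝ) + 1 ≤ q := by exact_mod_cast h2
    have h4 : 1 / (q : ℝ) ≤ 1 - ((n % q : ℕ) : ℝ) / q := by
      rw [div_le_iff₀ hqpos, sub_mul, one_mul, div_mul_cancel₀ _ hqpos.ne']
      linarith
    exact mul_le_mul h4 (ih _ h1) (by positivity) (le_trans (by positivity) h4)

end Pool.Agent.PKP
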