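import Pool.Agent.PKP.Core
import Pool.Agent.PKP.Count

set_option autoImplicit false

namespace Pool.Agent.PKP

open Finset

/-- `∑_{2 ≤ j ≤ k} q^(d v_q(j))` -/
def Nn (q d k : ℕ) : ℕ := ∑ j ∈ Icc 2 k, q ^ (d * padicValNat q j)

/-- product of the prime to `q` parts -/
def Lam (q d k : ℕ) : ℕ := ∏ j ∈ Icc 2 k, (j / q ^ padicValNat q j) ^ d

/-- generating series modulo `q` -/
noncomputable def F (q d k : ℕ) : PowerSeries (ZMod q) :=
  PowerSeries.mk fun n => (P d k n : ZMod q)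

theorem F_zero (q d : ℕ) : F q d 0 = 1 := by
  ext n
  rw [F, PowerSeries.coeff_mk, P_zero, PowerSeries.coeff_one]
  split_ifs <;> simp

theorem F_succ (q d k : ℕ) :
    F q d (k + 1) * (1 - PowerSeries.X ^ ((k + 1) ^ d)) = F q d k := by
  ext n
  rw [mul_sub, mul_one, map_sub, PowerSeries.coeff_mul_X_pow']
  simp only [F, PowerSeries.coeff_mk]
  rw [P_succ d k n]
  split_ifs <;> push_cast <;> ring

theorem F_prod (q d k : ℕ) :
    F q d (k + 1) * (∏ j ∈ Icc 2 (k + 1), (1 - PowerSeries.X ^ (j ^ d)))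
      * (1 - PowerSeries.X) = 1 := by
  induction k with
  | zero =>
    have h := F_succ q d 0
    rw [F_zero] at h
    simpa using h
  | succ k ih =>
    rw [prod_Icc_succ_top (by omega)]
    have h := F_succ q d (k + 1)
    calc F q d (k + 1 + 1) * ((∏ j ∈ Icc 2 (k + 1), (1 - PowerSeries.X ^ (j ^ d)))
          * (1 - PowerSeries.X ^ ((k + 1 + 1) ^ d))) * (1 - PowerSeries.X)
        = (F q d (k + 1 + 1) * (1 - PowerSeries.X ^ ((k + 1 + 1) ^ d)))
          * (∏ j ∈ Icc 2 (k + 1), (1 - PowerSeries.X ^ (j ^ d))) * (1 - PowerSeries.X) := by ring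
      _ = 1 := by rw [h, ih]

theorem split (q : ℕ) [hq : Fact q.Prime] (j : ℕ) (hj : j ≠ 0) :
    j = q ^ padicValNat q j * (j / q ^ padicValNat q j) ∧ ¬ q ∣ j / q ^ padicValNat q j := by
  rw [← Nat.factorization_def j hq.out]
  exact ⟨(Nat.ordProj_mul_ordCompl_eq_self j q).symm, Nat.not_dvd_ordCompl hq.out hj⟩

theorem not_dvd_prod (q : ℕ) [hq : Fact q.Prime] (d : ℕ) (s : Finset ℕ) (hs : ∀ j ∈ s, j ≠ 0) :
    ¬ q ∣ ∏ j ∈ s, (j / q ^ padicValNat q j) ^ d := by
  intro h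
  rw [(Nat.prime_iff.1 hq.out).dvd_finsetProd_iff] at h
  obtain ⟨j, hj, h1⟩ := h
  exact (split q j (hs j hj)).2 (hq.out.dvd_of_dvd_pow h1)

theorem step (q : ℕ) [hq : Fact q.Prime] (d j Λ : ℕ) (hj : j ≠ 0)
    (h1 : (j / q ^ padicValNat q j) ^ d ∣ Λ) (h2 : ¬ q ∣ Λ) :
    ∃ Q : Polynomial (ZMod q), Q.eval 1 ≠ 0 ∧
      (1 - Polynomial.X ^ (j ^ d)) * Q
        = (1 - Polynomial.X ^ Λ) ^ (q ^ (d * padicValNat q j)) := by
  obtain ⟨hs, hs2⟩ := split q j hj
  set v := padicValNat q j with hv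
  set a := (j / q ^ v) ^ d with ha
  obtain ⟨T, hT⟩ := h1
  refine ⟨(∑ t ∈ range T, (Polynomial.X ^ a) ^ t) ^ (q ^ (d * v)), ?_, ?_⟩
  · rw [Polynomial.eval_pow, Polynomial.eval_finsetSum]
    simp only [Polynomial.eval_pow, Polynomial.eval_X, one_pow, sum_const, card_range,
      nsmul_eq_mul, mul_one]
    apply pow_ne_zero
    intro h0
    rw [ZMod.natCast_eq_zero_iff] at h0
    apply h2
    rw [hT]
    exact Dvd.dvd.mul_left h0 a
  · have e1 : j ^ d = a * q ^ (d * v) := by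
      rw [ha]
      conv_lhs => rw [hs]
      rw [mul_pow, ← pow_mul, mul_comm v d, mul_comm]
    have e2 : (1 - Polynomial.X ^ (j ^ d) : Polynomial (ZMod q))
        = (1 - Polynomial.X ^ a) ^ (q ^ (d * v)) := by
      rw [sub_pow_char_pow, one_pow, ← pow_mul, e1]
    rw [e2, ← mul_pow, mul_neg_geom_sum, ← pow_mul, hT]

theorem exists_B (q : ℕ) [hq : Fact q.Prime] (d k : ℕ) :
    ∃ B : Polynomial (ZMod q), B.eval 1 ≠ 0 ∧
      (∏ j ∈ Icc 2 k, (1 - Polynomial.X ^ (j ^ d))) * B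
        = (1 - Polynomial.X ^ (Lam q d k)) ^ (Nn q d k) := by
  classical
  have h2 : ¬ q ∣ Lam q d k := not_dvd_prod q d _ (fun j hj => by
    rw [mem_Icc] at hj; omega)
  have h : ∀ j ∈ Icc 2 k, ∃ Q : Polynomial (ZMod q), Q.eval 1 ≠ 0 ∧
      (1 - Polynomial.X ^ (j ^ d)) * Q
        = (1 - Polynomial.X ^ (Lam q d k)) ^ (q ^ (d * padicValNat q j)) := by
    intro j hj
    apply step q d j _ _ _ h2
    · rw [mem_Icc] at hj; omega
    · exact dvd_prod_of_mem (fun j => (j / q ^ padicValNat q j) ^ d) hj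
  choose! Q hQ1 hQ2 using h
  refine ⟨∏ j ∈ Icc 2 k, Q j, ?_, ?_⟩
  · rw [Polynomial.eval_prod]
    exact prod_ne_zero_iff.2 hQ1
  · rw [← prod_mul_distrib, prod_congr rfl hQ2, prod_pow_eq_pow_sum]
    rfl

theorem ringHom_X (q : ℕ) :
    Polynomial.coeToPowerSeries.ringHom (Polynomial.X : Polynomial (ZMod q)) = PowerSeries.X := by
  rw [Polynomial.coeToPowerSeries.ringHom_apply, Polynomial.coe_X]

theorem coeff_const (q : ℕ) (G : PowerSeries (ZMod q)) (B : Polynomial (ZMod q))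
    (h : G * (1 - PowerSeries.X) = (B : PowerSeries (ZMod q))) (n : ℕ) (hn : B.natDegree ≤ n) :
    PowerSeries.coeff n G = B.eval 1 := by
  have h1 : ∀ n, PowerSeries.coeff n G = ∑ i ∈ range (n + 1), B.coeff i := by
    intro n
    induction n with
    | zero =>
      have h2 := congrArg (PowerSeries.coeff 0) h
      rw [mul_sub, mul_one, map_sub, Polynomial.coeff_coe] at h2
      simpa using h2
    | succ n ih =>
      have h2 := congrArg (PowerSeries.coeff (n + 1)) h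
      rw [mul_sub, mul_one, map_sub, Polynomial.coeff_coe, PowerSeries.coeff_succ_mul_X, ih] at h2
      rw [sum_range_succ, ← h2]
      ring
  rw [h1, Polynomial.eval_eq_sum_range' (n := n + 1) (by omega)]
  simp

theorem main_series (q : ℕ) [hq : Fact q.Prime] (d k : ℕ) (hk : 1 ≤ k) :
    ∃ (A : ℕ) (β : ZMod q), β ≠ 0 ∧
      (∀ n, A ≤ n → PowerSeries.coeff n
        ((1 - PowerSeries.X ^ (Lam q d k)) ^ (Nn q d k) * F q d k) = β) ∧
      (∀ n, A ≤ n → (P d k (n + Lam q d k * q ^ (Nn q d k + 1)) : ZMod q) = (P d k n : ZMod q)) := by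
  obtain ⟨k, rfl⟩ : ∃ m, k = m + 1 := ⟨k - 1, by omega⟩
  obtain ⟨B, hB1, hB2⟩ := exists_B q d (k + 1)
  set Λ := Lam q d (k + 1) with hΛ
  set N := Nn q d (k + 1) with hN
  have hF := F_prod q d k
  have hB3 : (∏ j ∈ Icc 2 (k + 1), (1 - PowerSeries.X ^ (j ^ d))) * (B : PowerSeries (ZMod q))
      = (1 - PowerSeries.X ^ Λ) ^ N := by
    have := congrArg (fun p : Polynomial (ZMod q) => (p : PowerSeries (ZMod q))) hB2
    simpa [← Polynomial.coeToPowerSeries.ringHom_apply, map_prod, ringHom_X] using this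
  have hG : ((1 - PowerSeries.X ^ Λ) ^ N * F q d (k + 1)) * (1 - PowerSeries.X)
      = (B : PowerSeries (ZMod q)) := by
    rw [← hB3]
    calc _ = (B : PowerSeries (ZMod q)) * (F q d (k + 1) *
          (∏ j ∈ Icc 2 (k + 1), (1 - PowerSeries.X ^ (j ^ d))) * (1 - PowerSeries.X)) := by ring
      _ = _ := by rw [hF, mul_one]
  -- periodicity
  obtain ⟨r, hr⟩ : ∃ r, q ^ (N + 1) = (N + 1) + r :=
    ⟨q ^ (N + 1) - (N + 1), by
      have : N + 1 < q ^ (N + 1) := Nat.lt_pow_self hq.out.one_lt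
      omega⟩
  set C : Polynomial (ZMod q) := (1 - Polynomial.X ^ Λ) ^ r *
    (∑ t ∈ range Λ, Polynomial.X ^ t) * B with hC
  have hP : (1 - PowerSeries.X ^ (Λ * q ^ (N + 1))) * F q d (k + 1)
      = (C : PowerSeries (ZMod q)) := by
    have e1 : (1 - PowerSeries.X ^ (Λ * q ^ (N + 1)) : PowerSeries (ZMod q))
        = (1 - PowerSeries.X ^ Λ) ^ (q ^ (N + 1)) := by
      have e0 : (1 - Polynomial.X ^ (Λ * q ^ (N + 1)) : Polynomial (ZMod q))
        = (1 - Polynomial.X ^ Λ) ^ (q ^ (N + 1)) := by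
        rw [sub_pow_char_pow, one_pow, ← pow_mul]
      have := congrArg (fun p : Polynomial (ZMod q) => (p : PowerSeries (ZMod q))) e0
      simpa [← Polynomial.coeToPowerSeries.ringHom_apply, ringHom_X] using this
    have e2 : (C : PowerSeries (ZMod q)) = (1 - PowerSeries.X ^ Λ) ^ r *
        (∑ t ∈ range Λ, PowerSeries.X ^ t) * (B : PowerSeries (ZMod q)) := by
      rw [hC]
      simp [← Polynomial.coeToPowerSeries.ringHom_apply, map_sum, ringHom_X]
    rw [e1, e2, hr, ← hG]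
    have e3 := mul_neg_geom_sum (PowerSeries.X : PowerSeries (ZMod q)) Λ
    calc (1 - PowerSeries.X ^ Λ) ^ (N + 1 + r) * F q d (k + 1)
        = (1 - PowerSeries.X ^ Λ) ^ r * ((1 - PowerSeries.X ^ Λ)) *
          ((1 - PowerSeries.X ^ Λ) ^ N * F q d (k + 1)) := by ring
      _ = (1 - PowerSeries.X ^ Λ) ^ r * ((1 - PowerSeries.X) *
          ∑ t ∈ range Λ, PowerSeries.X ^ t) *
          ((1 - PowerSeries.X ^ Λ) ^ N * F q d (k + 1)) := by rw [e3]
      _ = _ := by ring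
  refine ⟨B.natDegree + C.natDegree + 1, B.eval 1, hB1, ?_, ?_⟩
  · intro n hn
    exact coeff_const q _ B hG n (by omega)
  · intro n hn
    have h := congrArg (PowerSeries.coeff (n + Λ * q ^ (N + 1))) hP
    rw [sub_mul, one_mul, map_sub, PowerSeries.coeff_X_pow_mul, Polynomial.coeff_coe,
      Polynomial.coeff_eq_zero_of_natDegree_lt (by omega)] at h
    simp only [F, PowerSeries.coeff_mk] at h
    exact sub_eq_zero.1 h

end Pool.Agent.PKP
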