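import Pool.Agent.PKP.Series

set_option autoImplicit false

namespace Pool.Agent.PKP

open Finset

theorem w_add (q b : ℕ) (hq : 2 ≤ q) : ∀ N' : ℕ, N' < q ^ b →
    w q (q ^ b + N') = (1 - 1 / (q : ℝ)) * w q N' := by
  induction b with
  | zero =>
    intro N' h
    have h0 : N' = 0 := by simpa using h
    subst h0
    rw [w_rec q _ hq]
    have e1 : (q ^ 0 + 0) % q = 1 := by
      rw [pow_zero, add_zero]; exact Nat.mod_eq_of_lt (by omega)
    have e2 : (q ^ 0 + 0) / q = 0 := by
      rw [pow_zero, add_zero]; exact Nat.div_eq_of_lt (by omega)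
    rw [e1, e2]
    simp
  | succ b ih =>
    intro N' h
    have hq0 : 0 < q := by omega
    rw [w_rec q _ hq, w_rec q N' hq]
    have e1 : (q ^ (b + 1) + N') % q = N' % q := by
      rw [pow_succ, Nat.add_comm, Nat.add_mul_mod_self_right]
    have e2 : (q ^ (b + 1) + N') / q = q ^ b + N' / q := by
      rw [pow_succ, Nat.add_comm, Nat.add_mul_div_right _ _ hq0, Nat.add_comm]
    rw [e1, e2, ih (N' / q) (by
      rw [Nat.div_lt_iff_lt_mul hq0, ← pow_succ]
      exact h)]
    ring

/-- `q^(2 v_q(j))` -/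
def g (q j : ℕ) : ℕ := q ^ (2 * padicValNat q j)

/-- `∑_{1 ≤ j ≤ K} q^(2 v_q(j))` -/
def M (q K : ℕ) : ℕ := ∑ j ∈ range K, g q (j + 1)

theorem val_eq (q : ℕ) [hq : Fact q.Prime] (e m : ℕ) (hm : ¬ q ∣ m) :
    padicValNat q (q ^ e * m) = e := by
  have hm0 : m ≠ 0 := fun h => hm (by rw [h]; exact dvd_zero q)
  rw [padicValNat.mul (pow_ne_zero _ hq.out.ne_zero) hm0, padicValNat.prime_pow,
    padicValNat.eq_zero_of_not_dvd hm, add_zero]

theorem g_add (q : ℕ) [hq : Fact q.Prime] (v j : ℕ) (hj : j ≠ 0) (h : j < q ^ v) :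
    g q (q ^ v + j) = g q j := by
  obtain ⟨h1, h2⟩ := split q j hj
  set e := padicValNat q j with he
  set m := j / q ^ e with hm
  have hm1 : 1 ≤ m := by
    rcases Nat.eq_zero_or_pos m with h0 | h0
    · exact absurd (by rw [h0]; exact dvd_zero q) h2
    · exact h0
  have hev : e < v := by
    by_contra hcon
    have h3 : q ^ v ≤ q ^ e := Nat.pow_le_pow_right hq.out.pos (by omega)
    have h4 : q ^ e * 1 ≤ q ^ e * m := Nat.mul_le_mul_left _ hm1
    rw [← h1] at h4
    omega
  obtain ⟨c, rfl⟩ := Nat.exists_eq_add_of_lt hev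
  have e3 : q ^ (e + c + 1) + j = q ^ e * (q * q ^ c + m) := by
    conv_lhs => rw [h1]
    ring
  have e4 : ¬ q ∣ q * q ^ c + m := by
    intro h5
    exact h2 ((Nat.dvd_add_right (Dvd.intro _ rfl)).1 h5)
  unfold g
  rw [e3, val_eq q e _ e4, ← he]

theorem M_add (q : ℕ) [hq : Fact q.Prime] (v k : ℕ) (h : k < q ^ v) :
    M q (q ^ v + k) = M q (q ^ v) + M q k := by
  unfold M
  rw [sum_range_add]
  congr 1
  apply sum_congr rfl
  intro j hj
  rw [mem_range] at hj
  rw [show q ^ v + j + 1 = q ^ v + (j + 1) by ring]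
  exact g_add q v (j + 1) (by omega) (by omega)

theorem M_mul (q : ℕ) [hq : Fact q.Prime] (K : ℕ) :
    M q (q * K) = (q - 1) * K + q ^ 2 * M q K := by
  have hq2 := hq.out.two_le
  induction K with
  | zero => simp [M]
  | succ K ih =>
    have e1 : M q (q * (K + 1)) = M q (q * K) + ∑ r ∈ range q, g q (q * K + r + 1) := by
      unfold M
      rw [mul_add, mul_one, sum_range_add]
    have e2 : ∑ r ∈ range q, g q (q * K + r + 1) = (q - 1) + q ^ 2 * g q (K + 1) := by
      obtain ⟨q', hq'⟩ : ∃ q', q = q' + 1 := ⟨q - 1, by omega⟩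
      have e3 : ∑ r ∈ range q, g q (q * K + r + 1)
          = ∑ r ∈ range q', g q (q * K + r + 1) + g q (q * K + q' + 1) := by
        conv_lhs => rw [show range q = range (q' + 1) by rw [← hq']]
        rw [sum_range_succ]
      have e4 : ∀ r ∈ range q', g q (q * K + r + 1) = 1 := by
        intro r hr
        rw [mem_range] at hr
        unfold g
        rw [padicValNat.eq_zero_of_not_dvd]
        · simp
        · intro h5
          rw [show q * K + r + 1 = q * K + (r + 1) by ring,
            Nat.dvd_add_right (Dvd.intro _ rfl)] at h5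
          have := Nat.le_of_dvd (by omega) h5
          omega
      have e5 : g q (q * K + q' + 1) = q ^ 2 * g q (K + 1) := by
        rw [show q * K + q' + 1 = q * (K + 1) by rw [mul_add, mul_one]; omega]
        unfold g
        rw [padicValNat.mul hq.out.ne_zero (by omega), padicValNat_self, ← pow_add]
        congr 1
        ring
      rw [e3, sum_congr rfl e4, sum_const, card_range, smul_eq_mul, mul_one, e5]
      congr 1
      omega
    rw [e1, ih, e2]
    have e6 : M q (K + 1) = M q K + g q (K + 1) := by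
      unfold M
      rw [sum_range_succ]
    rw [e6]
    ring

theorem M_pow (q : ℕ) [hq : Fact q.Prime] (v : ℕ) :
    q * M q (q ^ v) + q ^ v = q ^ (2 * v + 1) + q ^ (2 * v) := by
  induction v with
  | zero => simp [M, g]
  | succ v ih =>
    rw [pow_succ, mul_comm (q ^ v) q, M_mul]
    obtain ⟨q', hq'⟩ : ∃ q', q = q' + 1 := ⟨q - 1, by have := hq.out.two_le; omega⟩
    have e1 : q * ((q - 1) * q ^ v + q ^ 2 * M q (q ^ v)) + q * q ^ v
        = q ^ 2 * (q * M q (q ^ v) + q ^ v) := by
      have e2 : q * ((q - 1) * q ^ v) + q * q ^ v = q ^ 2 * q ^ v := by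
        have : (q - 1) + 1 = q := by omega
        calc q * ((q - 1) * q ^ v) + q * q ^ v = q * (((q - 1) + 1) * q ^ v) := by ring
          _ = q ^ 2 * q ^ v := by rw [this]; ring
      calc q * ((q - 1) * q ^ v + q ^ 2 * M q (q ^ v)) + q * q ^ v
          = (q * ((q - 1) * q ^ v) + q * q ^ v) + q ^ 2 * (q * M q (q ^ v)) := by ring
        _ = q ^ 2 * q ^ v + q ^ 2 * (q * M q (q ^ v)) := by rw [e2]
        _ = _ := by ring
    rw [e1, ih]
    ring

theorem Nn_eq (q k : ℕ) : Nn q 2 (k + 1) + 1 = M q (k + 1) := by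
  induction k with
  | zero => simp [Nn, M, g]
  | succ k ih =>
    have e1 : Nn q 2 (k + 1 + 1) = Nn q 2 (k + 1) + g q (k + 1 + 1) := by
      unfold Nn
      rw [sum_Icc_succ_top (by omega)]
      rfl
    have e2 : M q (k + 1 + 1) = M q (k + 1) + g q (k + 1 + 1) := by
      unfold M
      rw [sum_range_succ]
    rw [e1, e2, ← ih]
    ring

theorem M_pow' (q : ℕ) [hq : Fact q.Prime] (v : ℕ) (hv : 1 ≤ v) :
    M q (q ^ v) + q ^ (v - 1) = q ^ (2 * v) + q ^ (2 * v - 1) := by
  have h := M_pow q v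
  apply Nat.eq_of_mul_eq_mul_left hq.out.pos
  have e1 : q * q ^ (v - 1) = q ^ v := by
    rw [← pow_succ', show v - 1 + 1 = v by omega]
  have e2 : q * q ^ (2 * v - 1) = q ^ (2 * v) := by
    rw [← pow_succ', show 2 * v - 1 + 1 = 2 * v by omega]
  rw [mul_add, mul_add, e1, e2, h, pow_succ']

/-- the inductive statement -/
def Good (q v : ℕ) : Prop :=
  ∃ k R : ℕ, q ^ v ≤ k ∧ k < 2 * q ^ v ∧ M q k = 1 + q ^ (2 * v) + q ^ (2 * v - 1) + R ∧
    R < q ^ (2 * v - 1) ∧ (1 - 1 / (q : ℝ)) ^ (Nat.log 2 v) ≤ w q R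

theorem good_step (q : ℕ) [hq : Fact q.Prime] (v : ℕ) (hv : 2 ≤ v) (h : Good q (v / 2)) :
    Good q v := by
  have hq2 := hq.out.two_le
  obtain ⟨k, R, h1, h2, h3, h4, h5⟩ := h
  have hpos : 0 ≤ 1 - 1 / (q : ℝ) := by
    have : (1 : ℝ) ≤ q := by exact_mod_cast hq.out.one_lt.le
    rw [sub_nonneg, div_le_one (by linarith)]
    exact this
  have hlog : Nat.log 2 v = Nat.log 2 (v / 2) + 1 := Nat.log_of_one_lt_of_le (by omega) hv
  set v' := v / 2 with hv'
  have hv1 : 1 ≤ v' := by omega
  have hdbl : ∀ n : ℕ, 2 * q ^ n ≤ q ^ (n + 1) := by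
    intro n
    rw [pow_succ, mul_comm]
    exact Nat.mul_le_mul_left _ hq2
  have hk : k < q ^ v := by
    have e1 : q ^ (v' + 1) ≤ q ^ v := Nat.pow_le_pow_right (by omega) (by omega)
    have := hdbl v'
    omega
  have hM : M q (q ^ v + k) = M q (q ^ v) + M q k := M_add q v k hk
  have hMp := M_pow' q v (by omega)
  have hw : ∀ b, R < q ^ b →
      (1 - 1 / (q : ℝ)) ^ (Nat.log 2 v) ≤ w q (q ^ b + R) := by
    intro b hb
    rw [w_add q b hq2 R hb, hlog, pow_succ, mul_comm]
    exact mul_le_mul_of_nonneg_left h5 hpos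
  have e5 : q ^ (2 * v' - 1) ≤ q ^ (2 * v') := Nat.pow_le_pow_right (by omega) (by omega)
  have e6 : q ^ (2 * v' + 1) ≤ q ^ (2 * v - 1) := Nat.pow_le_pow_right (by omega) (by omega)
  have e7 := hdbl (2 * v')
  rcases Nat.even_or_odd' v with ⟨c, hc | hc⟩
  · have hc' : v = 2 * v' := by omega
    have e4 : q ^ (v - 1) = q ^ (2 * v' - 1) := by rw [hc']
    refine ⟨q ^ v + k, q ^ (2 * v') + R, by omega, by omega, ?_, by omega, ?_⟩
    · rw [hM, h3]
      omega
    · exact hw _ (by omega)
  · have hc' : v = 2 * v' + 1 := by omega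
    have e4 : q ^ (v - 1) = q ^ (2 * v') := by
      rw [show v - 1 = 2 * v' by omega]
    refine ⟨q ^ v + k, q ^ (2 * v' - 1) + R, by omega, by omega, ?_, by omega, ?_⟩
    · rw [hM, h3]
      omega
    · exact hw _ h4

theorem good_odd (q : ℕ) [hq : Fact q.Prime] (h2 : q ≠ 2) (v : ℕ) (hv : 1 ≤ v) : Good q v := by
  have hq2 := hq.out.two_le
  induction v using Nat.strong_induction_on with
  | _ v ih =>
    rcases Nat.lt_or_ge v 2 with h | h
    · have hv1 : v = 1 := by omega
      subst hv1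
      refine ⟨q ^ 1 + 2, 0, by omega, by rw [pow_one]; omega, ?_, pow_pos (by omega) _, ?_⟩
      · rw [M_add q 1 2 (by rw [pow_one]; omega)]
        have e1 := M_pow' q 1 le_rfl
        have e2 : M q 2 = 2 := by
          unfold M
          rw [sum_range_succ, sum_range_one]
          unfold g
          rw [padicValNat.eq_zero_of_not_dvd, padicValNat.eq_zero_of_not_dvd]
          · simp
          · intro h5
            exact h2 ((Nat.prime_dvd_prime_iff_eq hq.out Nat.prime_two).1 h5)
          · intro h5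
            have := Nat.le_of_dvd (by omega) h5
            omega
        rw [e2]
        simp at e1 ⊢
        omega
      · simp [w]
    · exact good_step q v h (ih (v / 2) (by omega) (by omega))

theorem good_two (v : ℕ) (hv : 3 ≤ v) : Good 2 v := by
  have : Fact (Nat.Prime 2) := ⟨Nat.prime_two⟩
  have m1 := M_pow 2 1
  have m2 := M_pow 2 2
  have m3 := M_pow 2 3
  have m4 := M_pow 2 4
  have m5 := M_pow 2 5
  norm_num at m1 m2 m3 m4 m5
  have hw : ∀ n, w 2 n = (1 - ((n % 2 : ℕ) : ℝ) / (2 : ℕ)) * w 2 (n / 2) :=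
    fun n => w_rec 2 n le_rfl
  have hw0 : w 2 0 = 1 := by simp [w]
  induction v using Nat.strong_induction_on with
  | _ v ih =>
    rcases Nat.lt_or_ge v 6 with h | h
    · obtain rfl | rfl | rfl : v = 3 ∨ v = 4 ∨ v = 5 := by omega
      · refine ⟨10, 0, by norm_num, by norm_num, ?_, by norm_num, ?_⟩
        · have := M_add 2 3 2 (by norm_num)
          norm_num at this ⊢
          omega
        · rw [hw0]
          apply pow_le_one₀ <;> norm_num
      · refine ⟨22, 18, by norm_num, by norm_num, ?_, by norm_num, ?_⟩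
        · have a1 := M_add 2 4 6 (by norm_num)
          have a2 := M_add 2 2 2 (by norm_num)
          norm_num at a1 a2 ⊢
          omega
        · have l1 : Nat.log 2 4 = 2 := by
            rw [Nat.log_eq_iff] <;> norm_num
          rw [l1, hw 18, hw (18 / 2), hw (18 / 2 / 2), hw (18 / 2 / 2 / 2),
            hw (18 / 2 / 2 / 2 / 2)]
          norm_num [hw0]
      · refine ⟨36, 5, by norm_num, by norm_num, ?_, by norm_num, ?_⟩
        · have a1 := M_add 2 5 4 (by norm_num)
          norm_num at a1 ⊢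
          omega
        · have l1 : Nat.log 2 5 = 2 := by
            rw [Nat.log_eq_iff] <;> norm_num
          rw [l1, hw 5, hw (5 / 2), hw (5 / 2 / 2)]
          norm_num [hw0]
    · exact good_step 2 v (by omega) (ih (v / 2) (by omega) (by omega))

theorem squares (q : ℕ) [hq : Fact q.Prime] (v : ℕ) (hv : 1 ≤ v) :
    ∃ k N' s : ℕ, q ^ v ≤ k ∧ k < 2 * q ^ v ∧ N' < q ^ s ∧ Nn q 2 k = q ^ s + N' ∧
      (1 - 1 / (q : ℝ)) ^ (Nat.log 2 v + 1) ≤ w q N' := by
  have hq2 := hq.out.two_le
  have key : Good q v → ∃ k N' s : ℕ, q ^ v ≤ k ∧ k < 2 * q ^ v ∧ N' < q ^ s ∧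
      Nn q 2 k = q ^ s + N' ∧ (1 - 1 / (q : ℝ)) ^ (Nat.log 2 v + 1) ≤ w q N' := by
    rintro ⟨k, R, h1, h2, h3, h4, h5⟩
    have hpos : 0 ≤ 1 - 1 / (q : ℝ) := by
      have : (1 : ℝ) ≤ q := by exact_mod_cast hq.out.one_lt.le
      rw [sub_nonneg, div_le_one (by linarith)]
      exact this
    have hkpos : 1 ≤ k := le_trans (Nat.one_le_pow _ _ (by omega)) h1
    have e1 : 2 * q ^ (2 * v - 1) ≤ q ^ (2 * v) := by
      have e2 : q ^ (2 * v) = q * q ^ (2 * v - 1) := by
        rw [← pow_succ', show 2 * v - 1 + 1 = 2 * v by omega]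
      rw [e2]
      exact Nat.mul_le_mul_right _ hq2
    refine ⟨k, q ^ (2 * v - 1) + R, 2 * v, h1, h2, by omega, ?_, ?_⟩
    · obtain ⟨k', rfl⟩ : ∃ k', k = k' + 1 := ⟨k - 1, by omega⟩
      have := Nn_eq q k'
      omega
    · rw [w_add q _ hq2 R h4, pow_succ, mul_comm]
      exact mul_le_mul_of_nonneg_left h5 hpos
  by_cases h2 : q = 2
  · subst h2
    rcases Nat.lt_or_ge v 3 with h | h
    · have m1 := M_pow 2 1
      have m2 := M_pow 2 2
      norm_num at m1 m2
      obtain rfl | rfl : v = 1 ∨ v = 2 := by omega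
      · refine ⟨2, 0, 2, by norm_num, by norm_num, by norm_num, ?_, ?_⟩
        · have := Nn_eq 2 1
          norm_num at this ⊢
          omega
        · have hw0 : w 2 0 = 1 := by simp [w]
          rw [hw0]
          apply pow_le_one₀ <;> norm_num
      · refine ⟨4, 5, 4, by norm_num, by norm_num, by norm_num, ?_, ?_⟩
        · have := Nn_eq 2 3
          norm_num at this ⊢
          omega
        · have hw : ∀ n, w 2 n = (1 - ((n % 2 : ℕ) : ℝ) / (2 : ℕ)) * w 2 (n / 2) :=
            fun n => w_rec 2 n le_rfl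
          have hw0 : w 2 0 = 1 := by simp [w]
          have l1 : Nat.log 2 2 = 1 := by
            rw [Nat.log_eq_iff] <;> norm_num
          rw [l1, hw 5, hw (5 / 2), hw (5 / 2 / 2)]
          norm_num [hw0]
    · exact key (good_two v h)
  · exact key (good_odd q h2 v hv)

end Pool.Agent.PKP
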