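import Pool.Agent.PKP.Series

set_option autoImplicit false

namespace Pool.Agent.PKP

open Finset Filter Topology

theorem U_pow_coeff (q : ℕ) [Fact q.Prime] (H Λ A : ℕ) (Fs : PowerSeries (ZMod q))
    (f : ZMod H → ZMod q)
    (hf : ∀ n : ℕ, A ≤ n → f (n : ZMod H) = PowerSeries.coeff n Fs) (N : ℕ) :
    ∀ n : ℕ, A ≤ n → ((U q (Equiv.addRight (Λ : ZMod H))) ^ N) f (n : ZMod H)
      = PowerSeries.coeff (n + N * Λ) ((1 - PowerSeries.X ^ Λ) ^ N * Fs) := by
  induction N with
  | zero => intro n hn; simp [hf n hn]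
  | succ N ih =>
    intro n hn
    rw [pow_succ', Module.End.mul_apply, U_apply]
    have e : (Equiv.addRight (Λ : ZMod H)) (n : ZMod H) = ((n + Λ : ℕ) : ZMod H) := by simp
    rw [e, ih _ (by omega), ih _ hn, pow_succ', mul_assoc (1 - PowerSeries.X ^ Λ), sub_mul,
      one_mul, map_sub, show n + (N + 1) * Λ = (n + N * Λ) + Λ by ring,
      PowerSeries.coeff_X_pow_mul, show n + Λ + N * Λ = n + N * Λ + Λ by ring]

theorem per_mul {α : Type} (a : ℕ → α) (H A : ℕ) (h : ∀ n, A ≤ n → a (n + H) = a n) (t : ℕ) :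
    ∀ n, A ≤ n → a (n + t * H) = a n := by
  induction t with
  | zero => intro n _; simp
  | succ t ih =>
    intro n hn
    rw [show n + (t + 1) * H = (n + t * H) + H by ring, h _ (by nlinarith [Nat.zero_le (t * H)]),
      ih n hn]

theorem exists_f (q : ℕ) [hq : Fact q.Prime] (d k : ℕ) (hk : 1 ≤ k) :
    ∃ (H : ℕ) (_ : NeZero H) (f : ZMod H → ZMod q) (A : ℕ) (σ : Equiv.Perm (ZMod H)),
      (∀ n : ℕ, A ≤ n → f (n : ZMod H) = (P d k n : ZMod q)) ∧
      ((U q σ) ^ (Nn q d k + 1)) f = 0 ∧ ∀ x, ((U q σ) ^ (Nn q d k)) f x ≠ 0 := by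
  obtain ⟨A, β, hβ, hc, hp⟩ := main_series q d k hk
  set Λ := Lam q d k with hΛ
  set N := Nn q d k with hN
  set H := Λ * q ^ (N + 1) with hH
  have hL : ¬ q ∣ Λ := not_dvd_prod q d _ (fun j hj => by rw [mem_Icc] at hj; omega)
  have hL0 : Λ ≠ 0 := fun h => hL (by rw [h]; exact dvd_zero q)
  have hH0 : H ≠ 0 := Nat.mul_ne_zero hL0 (pow_ne_zero _ hq.out.ne_zero)
  have hHpos : 1 ≤ H := Nat.one_le_iff_ne_zero.2 hH0
  have : NeZero H := ⟨hH0⟩
  have hAH : A ≤ A * H := Nat.le_mul_of_pos_right A hHpos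
  set f : ZMod H → ZMod q := fun x => (P d k (A * H + x.val) : ZMod q) with hf
  have hf1 : ∀ n : ℕ, A * H ≤ n → f (n : ZMod H) = (P d k n : ZMod q) := by
    intro n hn
    obtain ⟨m, rfl⟩ := Nat.exists_eq_add_of_le hn
    have e1 : (((A * H + m : ℕ) : ZMod H)).val = m % H := by
      rw [ZMod.val_natCast, Nat.add_comm, Nat.add_mul_mod_self_right]
    rw [hf]
    simp only
    rw [e1]
    have e2 : A * H + m = (A * H + m % H) + (m / H) * H := by
      have := Nat.div_add_mod m H
      nlinarith [this]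
    have e3 : (P d k (A * H + m % H + m / H * H) : ZMod q) = (P d k (A * H + m % H) : ZMod q) :=
      per_mul (fun n => (P d k n : ZMod q)) H A hp (m / H) (A * H + m % H) (by omega)
    rw [← e2] at e3
    exact e3.symm
  have hf2 : ∀ n : ℕ, A * H ≤ n → f (n : ZMod H) = PowerSeries.coeff n (F q d k) := by
    intro n hn
    rw [hf1 n hn, F, PowerSeries.coeff_mk]
  have key : ∀ x, ((U q (Equiv.addRight (Λ : ZMod H))) ^ N) f x = β := by
    intro x
    have e1 : x = ((A * H + x.val : ℕ) : ZMod H) := by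
      push_cast
      rw [ZMod.natCast_self, mul_zero, zero_add, ZMod.natCast_zmod_val]
    rw [e1, U_pow_coeff q H Λ (A * H) (F q d k) f hf2 N _ (by omega)]
    apply hc
    have : A * H ≤ A * H + x.val + N * Λ := by
      rw [Nat.add_assoc]; exact Nat.le_add_right _ _
    omega
  refine ⟨H, inferInstance, f, A * H, Equiv.addRight (Λ : ZMod H), hf1, ?_, ?_⟩
  · rw [pow_succ', Module.End.mul_apply]
    funext x
    rw [U_apply, key, key, sub_self, Pi.zero_apply]
  · intro x
    rw [key]
    exact hβ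

theorem cnt_step {α : Type} [DecidableEq α] (H : ℕ) [NeZero H] (f : ZMod H → α) (a : ℕ → α)
    (A : ℕ) (h : ∀ n : ℕ, A ≤ n → f (n : ZMod H) = a n) (c : α) (t : ℕ) :
    ((Icc 1 (A + t * H)).filter fun n => a n = c).card
      = ((Icc 1 A).filter fun n => a n = c).card
        + t * (univ.filter fun x : ZMod H => f x = c).card := by
  have hD : ((range H).filter fun n : ℕ => f (n : ZMod H) = c).card
      = (univ.filter fun x : ZMod H => f x = c).card := by
    refine card_bij' (fun n _ => (n : ZMod H)) (fun x _ => x.val) ?_ ?_ ?_ ?_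
    · intro n hn
      rw [mem_filter] at hn ⊢
      exact ⟨mem_univ _, hn.2⟩
    · intro x hx
      rw [mem_filter] at hx ⊢
      refine ⟨mem_range.2 (ZMod.val_lt x), ?_⟩
      rw [ZMod.natCast_zmod_val]
      exact hx.2
    · intro n hn
      rw [mem_filter, mem_range] at hn
      exact ZMod.val_natCast_of_lt hn.1
    · intro x _
      exact ZMod.natCast_zmod_val x
  have hper : Function.Periodic (fun n : ℕ => f (n : ZMod H) = c) H := by
    intro n
    simp
  induction t with
  | zero => simp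
  | succ t ih =>
    have e1 : Icc 1 (A + (t + 1) * H) = Icc 1 (A + t * H) ∪
        Ico (A + t * H + 1) (A + t * H + 1 + H) := by
      ext n
      simp only [mem_Icc, mem_union, mem_Ico, add_mul, one_mul]
      omega
    have e2 : Disjoint (Icc 1 (A + t * H)) (Ico (A + t * H + 1) (A + t * H + 1 + H)) := by
      rw [Finset.disjoint_left]
      intro n h1 h2
      rw [mem_Icc] at h1
      rw [mem_Ico] at h2
      omega
    rw [e1, filter_union, card_union_of_disjoint (disjoint_filter_filter e2), ih]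
    have e3 : ((Ico (A + t * H + 1) (A + t * H + 1 + H)).filter fun n => a n = c)
        = ((Ico (A + t * H + 1) (A + t * H + 1 + H)).filter fun n : ℕ => f (n : ZMod H) = c) := by
      apply filter_congr
      intro n hn
      rw [mem_Ico] at hn
      rw [h n (by omega)]
    rw [e3, Nat.filter_Ico_card_eq_of_periodic _ _ _ hper, Nat.count_eq_card_filter_range, hD]
    ring

theorem cnt_tendsto {α : Type} [DecidableEq α] (H : ℕ) [NeZero H] (f : ZMod H → α) (a : ℕ → α)
    (A : ℕ) (h : ∀ n : ℕ, A ≤ n → f (n : ZMod H) = a n) (c : α) :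
    Tendsto (fun t : ℕ => (((Icc 1 (A + t * H)).filter fun n => a n = c).card : ℝ)
      / ((A + t * H : ℕ) : ℝ)) atTop
      (𝓝 (((univ.filter fun x : ZMod H => f x = c).card : ℝ) / H)) := by
  have hH : (0 : ℝ) < H := by exact_mod_cast Nat.pos_of_ne_zero (NeZero.ne H)
  set cf : ℝ := ((univ.filter fun x : ZMod H => f x = c).card : ℝ) with hcf
  set c0 : ℝ := (((Icc 1 A).filter fun n => a n = c).card : ℝ) with hc0
  have h1 : Tendsto (fun t : ℕ => (c0 / (t : ℝ) + cf) / ((A : ℝ) / (t : ℝ) + H)) atTop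
      (𝓝 ((0 + cf) / (0 + H))) := by
    apply Tendsto.div
    · exact (tendsto_const_div_atTop_nhds_zero_nat c0).add tendsto_const_nhds
    · exact (tendsto_const_div_atTop_nhds_zero_nat (A : ℝ)).add tendsto_const_nhds
    · rw [zero_add]; exact hH.ne'
  rw [zero_add, zero_add] at h1
  refine h1.congr' ?_
  filter_upwards [eventually_gt_atTop 0] with t ht
  rw [cnt_step H f a A h c t]
  have ht' : (0 : ℝ) < t := by exact_mod_cast ht
  push_cast
  rw [← hcf, ← hc0]
  have e1 : (A : ℝ) + t * H ≠ 0 := by positivity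
  have e2 : (A : ℝ) / t + H ≠ 0 := by positivity
  field_simp

theorem sub_tendsto (H A : ℕ) [NeZero H] :
    Tendsto (fun t : ℕ => A + t * H) atTop atTop := by
  apply tendsto_atTop_mono (f := fun t : ℕ => t) _ tendsto_id
  intro t
  have h1 : 1 ≤ H := Nat.one_le_iff_ne_zero.2 (NeZero.ne H)
  have h2 : t * 1 ≤ t * H := Nat.mul_le_mul_left _ h1
  show t ≤ A + t * H
  omega

theorem dens_tendsto {α : Type} [DecidableEq α] (H : ℕ) [NeZero H] (f : ZMod H → α) (a : ℕ → α)
    (A : ℕ) (h : ∀ n : ℕ, A ≤ n → f (n : ZMod H) = a n) (c : α) :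
    Tendsto (fun K : ℕ => (((Icc 1 K).filter fun n => a n = c).card : ℝ) / (K : ℝ)) atTop
      (𝓝 (((univ.filter fun x : ZMod H => f x = c).card : ℝ) / H)) := by
  apply tendsto_div_of_monotone_of_exists_subseq_tendsto_div
    (u := fun K : ℕ => (((Icc 1 K).filter fun n => a n = c).card : ℝ))
  · intro K L hKL
    show (((Icc 1 K).filter fun n => a n = c).card : ℝ) ≤ (((Icc 1 L).filter fun n => a n = c).card : ℝ)
    exact_mod_cast card_le_card (filter_subset_filter _ (Icc_subset_Icc_right hKL))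
  · intro b hb
    refine ⟨fun t => A + t * H, ?_, sub_tendsto H A, cnt_tendsto H f a A h c⟩
    have hc : Tendsto (fun t : ℕ => ((A + t * H : ℕ) : ℝ)) atTop atTop :=
      tendsto_natCast_atTop_atTop.comp (sub_tendsto H A)
    filter_upwards [hc.eventually_ge_atTop ((H : ℝ) / (b - 1))] with t ht
    rw [div_le_iff₀ (by linarith)] at ht
    push_cast at ht ⊢
    nlinarith

end Pool.Agent.PKP
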